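import Pool.Agent.Helper19.Fan.Low.FamA3

set_option autoImplicit false

/-!
# The family of drawings: parallel edges are not homotopic
-/

namespace Pool.Agent.Helper19.Fan.Low.FamA

open Equiv.Perm

variable {k : ℕ}

theorem small_ne (hk : 4 ≤ k) (n : ℤ) (h : Sm 4 n) : ((n : ℤ) : ZMod k) ≠ 0 :=
  h.ne (by exact_mod_cast hk)

/-- the endpoints of an edge, by class -/
theorem GG0 (j : ZMod k) : GG k (0, j) = s(Sum.inr j, Sum.inr (j + 1)) := by
  unfold GG
  simp [g1, g2, vert]

theorem GG1 (j : ZMod k) : GG k (1, j) = s(Sum.inl 0, Sum.inr j) := by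
  unfold GG
  simp [g1, g2, vert]

theorem GG2 (j : ZMod k) : GG k (2, j) = s(Sum.inl 1, Sum.inr j) := by
  unfold GG
  simp [g1, g2, vert]

theorem GG34 (c : Fin 5) (hc : c = 3 ∨ c = 4) (j : ZMod k) :
    GG k (c, j) = s(Sum.inr (j - 1), Sum.inr (j + 1)) := by
  unfold GG
  rcases hc with rfl | rfl <;> simp [g1, g2, vert, sub_eq_add_neg]

theorem one_ne (hk : 4 ≤ k) : (1 : ZMod k) ≠ 0 := by
  have := small_ne hk 1 (by decide)
  simpa using this

theorem two_ne (hk : 4 ≤ k) : (2 : ZMod k) ≠ 0 := by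
  have := small_ne hk 2 (by decide)
  simpa using this

theorem three_ne (hk : 4 ≤ k) : (3 : ZMod k) ≠ 0 := by
  have := small_ne hk 3 (by decide)
  simpa using this

theorem parallel (hk : 4 ≤ k) {e f : Fin 5 × ZMod k} (hef : e ≠ f) (hG : GG k e = GG k f) :
    (e.1 = 3 ∨ e.1 = 4) ∧ (f.1 = 3 ∨ f.1 = 4) := by
  have n1 := one_ne hk
  have n2 := two_ne hk
  have n3 := three_ne hk
  obtain ⟨c, j⟩ := e
  obtain ⟨c', j'⟩ := f
  have hc : c = 0 ∨ c = 1 ∨ c = 2 ∨ (c = 3 ∨ c = 4) := by
    fin_cases c <;> simp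
  have hc' : c' = 0 ∨ c' = 1 ∨ c' = 2 ∨ (c' = 3 ∨ c' = 4) := by
    fin_cases c' <;> simp
  rcases hc with rfl | rfl | rfl | hc <;> rcases hc' with rfl | rfl | rfl | hc'
  · exfalso
    rw [GG0, GG0, Sym2.eq_iff] at hG
    rcases hG with ⟨h1, -⟩ | ⟨h1, h2⟩
    · exact hef (by rw [Sum.inr.inj h1])
    · have e1 := Sum.inr.inj h1
      have e2 := Sum.inr.inj h2
      apply n2
      linear_combination e2 - e1
  · exfalso
    rw [GG0, GG1, Sym2.eq_iff] at hG
    rcases hG with ⟨h1, -⟩ | ⟨h1, h2⟩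
    · cases h1
    · cases h2
  · exfalso
    rw [GG0, GG2, Sym2.eq_iff] at hG
    rcases hG with ⟨h1, -⟩ | ⟨h1, h2⟩
    · cases h1
    · cases h2
  · exfalso
    rw [GG0, GG34 _ hc', Sym2.eq_iff] at hG
    rcases hG with ⟨h1, h2⟩ | ⟨h1, h2⟩
    · have e1 := Sum.inr.inj h1
      have e2 := Sum.inr.inj h2
      apply n1
      linear_combination e1 - e2
    · have e1 := Sum.inr.inj h1
      have e2 := Sum.inr.inj h2
      apply n3
      linear_combination e2 - e1
  · exfalso
    rw [GG0, GG1, Sym2.eq_iff] at hG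
    rcases hG with ⟨h1, -⟩ | ⟨h1, h2⟩
    · cases h1
    · cases h1
  · exfalso
    rw [GG1, GG1, Sym2.eq_iff] at hG
    rcases hG with ⟨-, h2⟩ | ⟨h1, h2⟩
    · exact hef (by rw [Sum.inr.inj h2])
    · cases h1
  · exfalso
    rw [GG1, GG2, Sym2.eq_iff] at hG
    rcases hG with ⟨h1, -⟩ | ⟨h1, h2⟩
    · exact absurd (Sum.inl.inj h1) (by decide)
    · cases h1
  · exfalso
    rw [GG1, GG34 _ hc', Sym2.eq_iff] at hG
    rcases hG with ⟨h1, h2⟩ | ⟨h1, h2⟩ <;> cases h1
  · exfalso
    rw [GG0, GG2, Sym2.eq_iff] at hG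
    rcases hG with ⟨h1, -⟩ | ⟨h1, h2⟩
    · cases h1
    · cases h1
  · exfalso
    rw [GG1, GG2, Sym2.eq_iff] at hG
    rcases hG with ⟨h1, -⟩ | ⟨h1, h2⟩
    · exact absurd (Sum.inl.inj h1) (by decide)
    · cases h1
  · exfalso
    rw [GG2, GG2, Sym2.eq_iff] at hG
    rcases hG with ⟨-, h2⟩ | ⟨h1, h2⟩
    · exact hef (by rw [Sum.inr.inj h2])
    · cases h1
  · exfalso
    rw [GG2, GG34 _ hc', Sym2.eq_iff] at hG
    rcases hG with ⟨h1, h2⟩ | ⟨h1, h2⟩ <;> cases h1
  · exfalso
    rw [GG0, GG34 _ hc, Sym2.eq_iff] at hG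
    rcases hG with ⟨h1, h2⟩ | ⟨h1, h2⟩
    · have e1 := Sum.inr.inj h1
      have e2 := Sum.inr.inj h2
      apply n1
      linear_combination e2 - e1
    · have e1 := Sum.inr.inj h1
      have e2 := Sum.inr.inj h2
      apply n3
      linear_combination e2 - e1
  · exfalso
    rw [GG1, GG34 _ hc, Sym2.eq_iff] at hG
    rcases hG with ⟨h1, h2⟩ | ⟨h1, h2⟩
    · cases h1
    · cases h2
  · exfalso
    rw [GG2, GG34 _ hc, Sym2.eq_iff] at hG
    rcases hG with ⟨h1, h2⟩ | ⟨h1, h2⟩
    · cases h1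
    · cases h2
  · exact ⟨hc, hc'⟩

/-- the steps allowed in the region -/
def Stp (k : ℕ) (e f : Fin 5 × ZMod k) (a b : Fin 26 × ZMod k) : Prop :=
  b = ((rotP k)⁻¹ * revP k) a ∨ (labF k a ≠ e ∧ labF k a ≠ f ∧ b = revP k a)

theorem stp_iter (e f : Fin 5 × ZMod k) (m : ℕ) (t : Fin 26) (i : ZMod k) :
    Relation.ReflTransGen (Stp k e f) (t, i) ((it ph m t).1, i + ((it ph m t).2 : ZMod k)) := by
  rw [← iterate_act]
  induction m with
  | zero => exact Relation.ReflTransGen.refl
  | succ m ih =>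
    rw [Function.iterate_succ_apply']
    refine ih.tail (Or.inl ?_)
    rw [phi_apply]

theorem nonhom (hk : 4 ≤ k) (e f : Fin 5 × ZMod k) (hef : e ≠ f) (hG : GG k e = GG k f)
    (d : Fin 26 × ZMod k) : ∃ d' v, Relation.ReflTransGen (Stp k e f) d d' ∧
      orgF k d' = Sum.inl v ∧ v ∉ GG k e := by
  have n1 := one_ne hk
  have n2 := two_ne hk
  have n3 := three_ne hk
  obtain ⟨he, hf⟩ := parallel hk hef hG
  obtain ⟨c, j⟩ := e
  have hGe := GG34 c he j
  have hpole : ∀ p : Fin 2, (Sum.inl p : VV k) ∉ GG k (c, j) := by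
    intro p hp
    rw [hGe, Sym2.mem_iff] at hp
    rcases hp with hp | hp <;> cases hp
  have hin : ∀ x : ZMod k, (Sum.inr x : VV k) ∈ GG k (c, j) ↔ x = j - 1 ∨ x = j + 1 := by
    intro x
    rw [hGe, Sym2.mem_iff]
    constructor
    · rintro (h | h)
      · exact Or.inl (Sum.inr.inj h)
      · exact Or.inr (Sum.inr.inj h)
    · rintro (rfl | rfl)
      · exact Or.inl rfl
      · exact Or.inr rfl
  -- a pole on the boundary of the cell
  have hP : ∀ (t : Fin 26) (i : ZMod k),
      (∃ m < 4, oc (it ph m t).1 = .inl 0 ∨ oc (it ph m t).1 = .inl 1) →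
      ∃ d' v, Relation.ReflTransGen (Stp k (c, j) f) (t, i) d' ∧
      orgF k d' = Sum.inl v ∧ v ∉ GG k (c, j) := by
    rintro t i ⟨m, -, h | h⟩
    · refine ⟨_, Sum.inl 0, stp_iter (c, j) f m t i, ?_, hpole 0⟩
      unfold orgF; simp only [h]; rfl
    · refine ⟨_, Sum.inl 1, stp_iter (c, j) f m t i, ?_, hpole 1⟩
      unfold orgF; simp only [h]; rfl
  -- a rim vertex on the boundary of the cell
  have hR : ∀ (t : Fin 26) (i : ZMod k) (m : ℕ), oc (it ph m t).1 = .inl 2 →
      i + (((it ph m t).2 + os (it ph m t).1 : ℤ) : ZMod k) ≠ j - 1 →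
      i + (((it ph m t).2 + os (it ph m t).1 : ℤ) : ZMod k) ≠ j + 1 →
      ∃ d' v, Relation.ReflTransGen (Stp k (c, j) f) (t, i) d' ∧
      orgF k d' = Sum.inl v ∧ v ∉ GG k (c, j) := by
    intro t i m h h1 h2
    refine ⟨_, Sum.inr (i + (((it ph m t).2 + os (it ph m t).1 : ℤ) : ZMod k)),
      stp_iter (c, j) f m t i, ?_, ?_⟩
    · unfold orgF; simp only [h]
      rw [Int.cast_add, ← add_assoc]; rfl
    · rw [hin]
      rintro (h3 | h3)
      · exact h1 h3
      · exact h2 h3
  obtain ⟨t, i⟩ := d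
  have key : ∀ t, (∃ m < 4, oc (it ph m t).1 = .inl 0 ∨ oc (it ph m t).1 = .inl 1) ∨
      (∃ m < 4, ∃ m' < 4, oc (it ph m t).1 = .inl 2 ∧ oc (it ph m' t).1 = .inl 2 ∧
        (it ph m' t).2 + os (it ph m' t).1 = (it ph m t).2 + os (it ph m t).1 + 1) ∨
      (∃ m < 4, oc (it ph m t).1 = .inl 2 ∧ ∃ m' < 4,
        (lc (it ph m' t).1 = 3 ∨ lc (it ph m' t).1 = 4) ∧
        (it ph m' t).2 = (it ph m t).2 + os (it ph m t).1 ∧
        (rv (it ph m' t).1).2 = 0 ∧
        ∃ m'' < 4, oc (it ph m'' (rv (it ph m' t).1).1).1 = .inl 0 ∨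
          oc (it ph m'' (rv (it ph m' t).1).1).1 = .inl 1) := by decide
  rcases key t with h | ⟨m, -, m', -, h1, h2, h3⟩ | ⟨m, -, h1, m', -, h2, h3, h4, h5⟩
  · exact hP t i h
  · by_cases g1 : i + (((it ph m t).2 + os (it ph m t).1 : ℤ) : ZMod k) = j - 1
    · apply hR t i m' h2
      · rw [h3, Int.cast_add, ← add_assoc, g1]
        intro hh; apply n1
        push_cast at hh
        linear_combination hh
      · rw [h3, Int.cast_add, ← add_assoc, g1]
        intro hh; apply n1
        push_cast at hh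
        linear_combination -hh
    · by_cases g2 : i + (((it ph m t).2 + os (it ph m t).1 : ℤ) : ZMod k) = j + 1
      · apply hR t i m' h2
        · rw [h3, Int.cast_add, ← add_assoc, g2]
          intro hh; apply n3
          push_cast at hh
          linear_combination hh
        · rw [h3, Int.cast_add, ← add_assoc, g2]
          intro hh; apply n1
          push_cast at hh
          linear_combination hh
      · exact hR t i m h1 g1 g2
  · by_cases g1 : (Sum.inr (i + (((it ph m t).2 + os (it ph m t).1 : ℤ) : ZMod k)) : VV k) ∈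
        GG k (c, j)
    · -- cross the segment
      set x := i + (((it ph m t).2 + os (it ph m t).1 : ℤ) : ZMod k) with hx
      have hnot : ∀ c', (c' = 3 ∨ c' = 4) → (Sum.inr x : VV k) ∉ GG k (c', x) := by
        intro c' hc' hh
        rw [GG34 c' hc', Sym2.mem_iff] at hh
        rcases hh with hh | hh
        · have := Sum.inr.inj hh
          apply n1; linear_combination this
        · have := Sum.inr.inj hh
          apply n1; linear_combination -this
      have s1 := stp_iter (c, j) f m' t i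
      have hlab : labF k ((it ph m' t).1, i + ((it ph m' t).2 : ZMod k)) =
          (lc (it ph m' t).1, x) := by
        unfold labF
        simp only [h3, hx]
      have s2 : Stp k (c, j) f ((it ph m' t).1, i + ((it ph m' t).2 : ZMod k))
          ((rv (it ph m' t).1).1, x) := by
        right
        refine ⟨?_, ?_, ?_⟩
        · rw [hlab]
          intro hh
          apply hnot _ h2
          rw [hh]; exact g1
        · rw [hlab]
          intro hh
          apply hnot _ h2
          rw [hh, ← hG]; exact g1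
        · rw [revP_apply]
          unfold act
          simp only [h4, h3, hx, Int.cast_zero, add_zero]
      obtain ⟨d', v, s3, s4, s5⟩ := hP (rv (it ph m' t).1).1 x h5
      exact ⟨d', v, (s1.tail s2).trans s3, s4, s5⟩
    · rw [hin, not_or] at g1
      exact hR t i m h1 g1.1 g1.2

/-- the drawing -/
def preA (hk : 4 ≤ k) [NeZero k] : Pre (GG k) (Fin 4 × ZMod k) (Fin 26 × ZMod k)
    (Fin 8 × ZMod k) where
  rev := revP k
  rot := rotP k
  org := orgF k
  lab := labF k
  tgt := tgtF k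
  rk := fun d => rkt d.1
  face := faceF k
  pcan := pcanF k
  fcan := fun f => (fcn f.1, f.2)
  fw := fwF k
  fu := fuF k
  rev_rev := rev_rev
  rev_ne := rev_ne
  org_rot := org_rot
  org_pcan := org_pcan
  pcan_cyc := pcan_cyc
  four := four
  face_phi := face_phi
  face_fcan := face_fcan
  fcan_cyc := fcan_cyc
  conn := conn
  euler := euler k
  lab_rev := lab_rev
  lab_straight := lab_straight
  lead := lead
  drawn := drawn
  ends := ends
  single := single hk
  simple1 := fun d x h v => simple1 hk d x h v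
  simple2 := simple2 hk
  fan_mem := fan_mem
  fan := fan hk
  nonhom := nonhom hk

theorem exists_six (n : ℕ) (hn : 6 ≤ n) : ∃ (V E : Type) (_ : Fintype V) (_ : Fintype E)
    (G : E → Sym2 V), Fintype.card V = n ∧ Fintype.card E = 5 * n - 10 ∧
    FanPlanarNonHomotopic G := by
  obtain ⟨k, rfl⟩ : ∃ k, n = k + 2 := ⟨n - 2, by omega⟩
  have hk : 4 ≤ k := by omega
  have : NeZero k := ⟨by omega⟩
  refine ⟨VV k, Fin 5 × ZMod k, inferInstance, inferInstance, GG k, ?_, ?_, ?_⟩
  · simp only [Fintype.card_sum, Fintype.card_fin, ZMod.card]; omega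
  · simp only [Fintype.card_prod, Fintype.card_fin, ZMod.card]; omega
  · exact (preA hk).fanPlanarNonHomotopic (loopless hk)

end Pool.Agent.Helper19.Fan.Low.FamA
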