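import Pool.Agent.Helper19.Fan.Low.Conc

set_option autoImplicit false
set_option maxRecDepth 100000
set_option exponentiation.threshold 1000

/-!
# Drawings with three, four and five vertices
-/

namespace Pool.Agent.Helper19.Fan.Low

/-- the `i`-th digit of a number in base `2 ^ w` -/
def lk (n : ℕ) [NeZero n] (T w i : ℕ) : Fin n := Fin.ofNat n (T / 2 ^ (w * i) % 2 ^ w)

/-- tables -/
def C5 : CC 70 5 10 15 22 where
  rev := fun d => lk 70 1610722380791013542079658599967040043259759419370578517544422581140046896410504137928541156536263829918615864288469268945449047604234757436193489669 7 d
  rot := fun d => lk 70 1484869210841655204596423202266456774992986456988713818451626523794454169940943068375322635456911516019514861793189852427246770810533511817098317468 7 d
  ri := fun d => lk 70 729750191470590953057598435934455903323030760345134977264176713961860439312383318721004295588087014767091108055181283957834348907439730789433957952 7 d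
  org := fun d => if (lk 15 785033924443153679672553134048185393079450287998993107836628281884618952479903916192489479421332140809639077026182196990125627669042052720508932 7 d).val < 5 then Sum.inl (lk 5 785033924443153679672553134048185393079450287998993107836628281884618952479903916192489479421332140809639077026182196990125627669042052720508932 7 d) else Sum.inr (lk 10 5579650452850230153266348303859757565530511255562503344652770930134545757798990157426975997611084979102660375347200 7 d)
  pcan := fun p => match p with
    | Sum.inl v => lk 70 8438017 7 v
    | Sum.inr x => lk 70 325649823521659028358 7 x
  lab := fun d => lk 15 100484341957314806020077260776174077702503937464338474251317383299462335615899771239654540785677608636681616252976872971203542210170064346586137349 7 d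
  tgt := fun d => lk 5 100484341954413174262200371670373461516512357054166005292079710938712844041329116474345932208542912676349272695970805437457446209041436877233635585 7 d
  rk := fun d => (lk 128 42640712568284318880557525867490821018782091227161281618802511303622028496306847878665903906295579970367335618910514340462850 7 d).val
  face := fun d => lk 22 278447041621264011774918048330516545760809523451775220997949288092002537568257753342100730040626075160912813217741413334844210326298583515013382400 7 d
  fcan := fun d => lk 70 8082999819915824929544765486935464999932412544 7 d
  fw := fun d => lk 5 1275117077243007594335821627392 7 d
  fu := fun d => lk 5 9961852193485863161396494465 7 d
  ga := fun d => lk 5 4971104150991654056198439040 7 d
  gb := fun d => lk 5 960699805906578026320235643137 7 d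
  up := ![
    [], [false, false, true, false], [false, true, false, false, true, false, false, true],
      [true, false, false, true, false, false, false, true, false, true], [true, false, false,
      true, false, true], [true], [true, false, false, true, false], [true, false, true, false,
      false, true, false, false, true], [false, false, true, false, false, false, true, false,
      true], [false, false, true, false, true], [false, false, true], [false, true, false,
      false, true], [false, true, false, true, false, false, true], [true, false, false, false,
      true, false, true], [true, false, true], [true, false, false, true], [true, false, true,
      false, false, true], [true, false, true, false, true, false, false, true], [false, false,
      false, true, false, true], [false, true], [false, false, true, false, false, true],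
      [false, false, true, false, true, false, false, true], [false, true, false, false, false,
      true, false, true], [false, true, false, true], [true, false, true, false], [true, false,
      false, true, false, false, true], [true, false, false, true, false, true, false, false,
      true], [true, false, true, false, false, false, true, false, true], [true, false, true,
      false, true], [false, true, false], [false, false], [false, false, false, false, true,
      false], [false, false, false, true, false, false, true, false, false, true], [true,
      false, false, true, false, false, true, false, false, false], [false, true, false, false,
      false, false], [true, false, false], [true, false, false, false, false, true, false],
      [true, false, false, false, true, false, false, true, false, false, true], [false, false,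
      true, false, false, true, false, false, false], [true, false, true, false, false, false,
      false], [false, false, true, false, false], [false, false, true, false, false, false,
      false, true, false], [true, false, true, false, false, true, false, false, false], [true,
      false, false, true, false, false, false], [false, true, false, false, false], [true,
      false, false, true, false, false], [true, false, false, true, false, false, false, false,
      true, false], [false, true, false, false, true, false, false, false], [false, false,
      true, false, false, false], [true, false, true, false, false, false], [false, true,
      false, false, false, false, true, false], [true, false, true, false, false, true, false,
      false, true, false, false, false], [true, false, false, true, false, false, false,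
      false], [true, false, false, false], [false, true, false, false], [true, false, true,
      false, false, false, false, true, false], [false, true, false, false, true, false, false,
      true, false, false, false], [false, false, true, false, false, false, false], [false,
      false, false], [true, false, true, false, false], [false, false, false, true, false],
      [false, false, true, false, false, true, false, false, true], [true, false, false, false,
      true, false, false, false, false], [true, false, false, false, false], [false], [true,
      false, false, false, true, false], [true, false, false, true, false, false, true, false,
      false, true], [false, false, false, true, false, false, false, false], [false, false,
      false, false], [true, false]]
  dn := ![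
    [], [true, false, false, true, false, true], [true, false, false, true, false, false,
      false, true, false, true], [false, true, false, false, true, false, false, true], [false,
      false, true, false], [true], [true, false, false, true, false], [true, false, false,
      true, false, false, false, true, false], [false, true, false, false, true, false, false],
      [false, true, false, false, false], [true, false, false], [true, false, false, true,
      false, false, false], [false, true, false, false, true, false, true], [false, true,
      false, false, true], [false, true, false], [true, false, false, true], [true, false,
      false, true, false, false, false, true], [false, true, false, false, true, false],
      [false, true, false, false], [true, false, false, false], [true, false, false, true,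
      false, false], [true, false, false, true, false, false, false, true, false, false],
      [false, false, true, false, false, true], [false, true], [true, false], [true, false,
      false, true, false, false, true], [false, true, false, false, true, false, false, true,
      false], [false, false, true, false, false], [false], [true, false, true], [false, false,
      false, false], [true, false, true, false, false, false], [true, false, true, false,
      false, false, false, true, false, false], [false, false, true, false, false, false,
      false, true, false, true], [false, false, false, true, false, true], [false, false,
      false, false, true], [true, false, true, false, false, false, true], [true, false, true,
      false, false, false, false, true, false, false, true], [false, false, true, false, false,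
      false, false, true, false], [false, false, false, true, false], [false, false, false,
      false, true, false, false], [true, false, true, false, false, false, true, false, false],
      [true, false, true, false, false, false, true, false, false, true, false], [false, false,
      false, true, false, false, true], [false, false, false, true, false, false, false],
      [true, false, true, false, false, false, true, false], [true, false, true, false, false,
      false, true, false, false, true], [false, false, true, false, false, false, false, true,
      false, false], [false, false, false, true, false, false], [false, false, false, false,
      true, false], [true, false, true, false, false, false, true, false, false, false], [true,
      false, true, false, false, false, true, false, false, true, false, false], [false, false,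
      true, false, false, false, false, true], [false, false, false, true], [true, false, true,
      false, false, true], [true, false, true, false, false, false, false, true, false],
      [false, true, false, false, true, false, false, true, false, false, false], [false,
      false, true, false, false, false, false], [false, false, false], [true, false, true,
      false, false], [true, false, true, false, false, false, false], [true, false, true,
      false, false, false, false, true, false, false, false], [false, false, true, false,
      false, false, true], [false, false, true], [true, false, true, false, true], [true,
      false, true, false, false, false, false, true], [false, true, false, false, true, false,
      false, true, false, false], [false, false, true, false, false, false], [false, false],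
      [true, false, true, false]]
  base := 0

/-- tables -/
def C4 : CC 24 4 2 8 8 where
  rev := fun d => lk 24 55951165008499262294028561094638229207270832571012 7 d
  rot := fun d => lk 24 23637018427833665847577846756274578562387229886999 7 d
  ri := fun d => lk 24 68866215605760101820031707514700952594117068944 7 d
  org := fun d => if (lk 6 68866127807550698714598683138436904463330476160 7 d).val < 4 then Sum.inl (lk 4 68866127807550698714598683138436904463330476160 7 d) else Sum.inr (lk 2 40884227080252082792885271920640 7 d)
  pcan := fun p => match p with
    | Sum.inl v => lk 24 6324352 7 v
    | Sum.inr x => lk 24 1540 7 x
  lab := fun d => lk 8 8814860188951509778142219249071413705085638738564 7 d
  tgt := fun d => lk 4 8814860156370142788215212684610577828111586427266 7 d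
  rk := fun d => (lk 128 152305614502176952959105 7 d).val
  face := fun d => lk 8 14775944126104472272630514102189881558472562081920 7 d
  fcan := fun d => lk 24 5669496429822464 7 d
  fw := fun d => lk 4 4467571294208 7 d
  fu := fun d => lk 4 571780949377153 7 d
  ga := fun d => lk 4 562984313192576 7 d
  gb := fun d => lk 4 1697749575713025 7 d
  up := ![
    [], [false, true, false], [true, false, false, true], [true, false, true], [true], [true,
      false, true, false], [false, false, true], [false, true], [false, false], [true, false,
      true, false, false], [true, false, false, true, false, false], [false, true, false,
      false, false], [true, false, false], [false, true, false, false], [false, false, true,
      false, false], [true, false, true, false, false, false], [false], [false, false, true,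
      false], [false, true, false, false, true], [true, false, false, false], [true, false],
      [true, false, false, true, false], [true, false, true, false, false, true], [false,
      false, false]]
  dn := ![
    [], [true, false, true], [true, false, false, true], [false, true, false], [true], [true,
      false], [true, false, false], [true, false, false, false], [false, false], [true, false,
      true, false, false], [true, false, false, true, false, false], [false, true, false,
      false, false], [false, false, true], [true, false, true, false, false, true], [false,
      false, true, false, false], [false, false, true, false], [false, false, false], [true,
      false, true, false, false, false], [false, true, false, false, true], [false, true],
      [true, false, true, false], [true, false, false, true, false], [false, true, false,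
      false], [false]]
  base := 0

/-- tables -/
def C3 : CC 6 3 0 3 2 where
  rev := fun d => lk 6 68987994627 7 d
  rot := fun d => lk 6 539033989 7 d
  ri := fun d => lk 6 539033989 7 d
  org := fun d => Sum.inl (lk 3 539000960 7 d)
  pcan := fun p => match p with
    | Sum.inl v => lk 6 32896 7 v
    | Sum.inr x => x.elim0
  lab := fun d => lk 3 68987945088 7 d
  tgt := fun d => lk 3 68987912449 7 d
  rk := fun d => (lk 128 0 7 d).val
  face := fun d => lk 2 34630270976 7 d
  fcan := fun d => lk 6 384 7 d
  fw := fun d => lk 3 0 7 d
  fu := fun d => lk 3 32897 7 d
  ga := fun d => lk 3 128 7 d
  gb := fun d => lk 3 33025 7 d
  up := ![
    [], [false, true], [true, false], [true], [true, false, true], [false]]
  dn := ![
    [], [true, false], [false, true], [true], [true, false, true], [false]]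
  base := 0

theorem ok_c5 : C5.Ok where
  rev_rev := by decide
  rev_ne := by decide
  ri_rot := by decide
  rot_ri := by decide
  org_rot := by decide
  org_pcan := by decide
  pcan_cyc := by decide
  four := by decide
  face_phi := by decide
  face_fcan := by decide
  fcan_cyc := by decide
  up_base := by decide
  dn_base := by decide
  euler := by decide
  lab_rev := by decide
  lab_straight := by decide
  lead := by decide
  drawn := by decide
  ends := by decide
  single := by decide
  simple1 := by decide
  simple2 := by decide
  fan_mem := by decide
  fan := by decide
  loopless := by decide
  nonhom := by decide

theorem ok_c4 : C4.Ok where
  rev_rev := by decide
  rev_ne := by decide
  ri_rot := by decide
  rot_ri := by decide
  org_rot := by decide
  org_pcan := by decide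
  pcan_cyc := by decide
  four := by decide
  face_phi := by decide
  face_fcan := by decide
  fcan_cyc := by decide
  up_base := by decide
  dn_base := by decide
  euler := by decide
  lab_rev := by decide
  lab_straight := by decide
  lead := by decide
  drawn := by decide
  ends := by decide
  single := by decide
  simple1 := by decide
  simple2 := by decide
  fan_mem := by decide
  fan := by decide
  loopless := by decide
  nonhom := by decide

theorem ok_c3 : C3.Ok where
  rev_rev := by decide
  rev_ne := by decide
  ri_rot := by decide
  rot_ri := by decide
  org_rot := by decide
  org_pcan := by decide
  pcan_cyc := by decide
  four := by decide
  face_phi := by decide
  face_fcan := by decide
  fcan_cyc := by decide
  up_base := by decide
  dn_base := by decide
  euler := by decide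
  lab_rev := by decide
  lab_straight := by decide
  lead := by decide
  drawn := by decide
  ends := by decide
  single := by decide
  simple1 := by decide
  simple2 := by decide
  fan_mem := by decide
  fan := by decide
  loopless := by decide
  nonhom := by decide

end Pool.Agent.Helper19.Fan.Low
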