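import Pool.Agent.Helper19.Fan.Low.Pre

set_option autoImplicit false

/-!
# Concrete drawings, given by finite tables
-/

namespace Pool.Agent.Helper19.Fan.Low

open Equiv.Perm

/-- Tables of a concrete drawing. -/
structure CC (N nV nX nE nF : ℕ) where
  rev : Fin N → Fin N
  rot : Fin N → Fin N
  ri : Fin N → Fin N
  org : Fin N → Fin nV ⊕ Fin nX
  lab : Fin N → Fin nE
  tgt : Fin N → Fin nV
  rk : Fin N → ℕ
  face : Fin N → Fin nF
  pcan : Fin nV ⊕ Fin nX → Fin N
  fcan : Fin nF → Fin N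
  fw : Fin nE → Fin nV
  fu : Fin nE → Fin nV
  ga : Fin nE → Fin nV
  gb : Fin nE → Fin nV
  up : Fin N → List Bool
  dn : Fin N → List Bool
  base : Fin N

namespace CC

variable {N nV nX nE nF : ℕ} (C : CC N nV nX nE nF)

/-- next dart of the cell -/
def ph (d : Fin N) : Fin N := C.ri (C.rev d)

/-- following a word -/
def go : List Bool → Fin N → Fin N
  | [], d => d
  | true :: w, d => go w (C.rev d)
  | false :: w, d => go w (C.rot d)

/-- the dart starts at a vertex outside the edge -/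
def good (e : Fin nE) (d : Fin N) : Bool :=
  match C.org d with
  | Sum.inl v => decide (v ≠ C.ga e) && decide (v ≠ C.gb e)
  | Sum.inr _ => false

/-- walk along the cell, looking for a good vertex or a good crossing move -/
def row (e : Fin nE) (nx : Fin N → Bool) : ℕ → Fin N → Bool
  | 0, d => C.good e d || nx d
  | m + 1, d => C.good e d || (row e nx m (C.ph d) || nx d)

/-- search for a vertex in the region, with at most `n` crossings of segments -/
def look (e f : Fin nE) : ℕ → Fin N → Bool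
  | 0 => C.row e (fun _ => false) 5
  | n + 1 => C.row e (fun d => decide (C.lab d ≠ e) && (decide (C.lab d ≠ f) &&
      look e f n (C.rev d))) 5

/-- all conditions -/
structure Ok : Prop where
  rev_rev : ∀ d, C.rev (C.rev d) = d
  rev_ne : ∀ d, C.rev d ≠ d
  ri_rot : ∀ d, C.ri (C.rot d) = d
  rot_ri : ∀ d, C.rot (C.ri d) = d
  org_rot : ∀ d, C.org (C.rot d) = C.org d
  org_pcan : ∀ p, C.org (C.pcan p) = p
  pcan_cyc : ∀ d, ∃ m : Fin 8, C.rot^[m] (C.pcan (C.org d)) = d
  four : ∀ d, (C.org d).isRight → C.rot (C.rot (C.rot (C.rot d))) = d ∧ C.rot (C.rot d) ≠ d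
  face_phi : ∀ d, C.face (C.ph d) = C.face d
  face_fcan : ∀ f, C.face (C.fcan f) = f
  fcan_cyc : ∀ d, ∃ m : Fin 8, C.ph^[m] (C.fcan (C.face d)) = d
  up_base : ∀ d, C.go (C.up d) d = C.base
  dn_base : ∀ d, C.go (C.dn d) C.base = d
  euler : 2 * (nV + nX + nF) = N + 4
  lab_rev : ∀ d, C.lab (C.rev d) = C.lab d
  lab_straight : ∀ d, (C.org d).isRight → C.lab (C.rot (C.rot d)) = C.lab d
  lead : ∀ d, C.org (C.rev d) = Sum.inl (C.tgt d) ∨ ((C.org (C.rev d)).isRight ∧
    C.tgt (C.rot (C.rot (C.rev d))) = C.tgt d ∧ C.rk (C.rot (C.rot (C.rev d))) < C.rk d)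
  drawn : ∀ e, ∃ d, C.lab d = e
  ends : ∀ d, (C.ga (C.lab d) = C.tgt d ∧ C.gb (C.lab d) = C.tgt (C.rev d)) ∨
    (C.gb (C.lab d) = C.tgt d ∧ C.ga (C.lab d) = C.tgt (C.rev d))
  single : ∀ d d', C.lab d = C.lab d' → (C.org d).isLeft → C.org d = C.org d' → d = d'
  simple1 : ∀ d, (C.org d).isRight →
    C.ga (C.lab d) ≠ C.ga (C.lab (C.rot d)) ∧ C.ga (C.lab d) ≠ C.gb (C.lab (C.rot d)) ∧
    C.gb (C.lab d) ≠ C.ga (C.lab (C.rot d)) ∧ C.gb (C.lab d) ≠ C.gb (C.lab (C.rot d))
  simple2 : ∀ d d', C.lab d = C.lab d' → (C.org d).isRight → (C.org d').isRight →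
    C.lab (C.rot d) = C.lab (C.rot d') → C.org d = C.org d'
  fan_mem : ∀ e, C.fu e = C.ga e ∨ C.fu e = C.gb e
  fan : ∀ d, (C.org (C.rev d)).isRight → C.tgt d = C.fu (C.lab d) →
    C.tgt (C.ph d) = C.fw (C.lab d)
  loopless : ∀ e, C.ga e ≠ C.gb e
  nonhom : ∀ e f, e ≠ f → ((C.ga e = C.ga f ∧ C.gb e = C.gb f) ∨
    (C.ga e = C.gb f ∧ C.gb e = C.ga f)) → ∀ d, C.look e f 2 d = true

/-- the multigraph -/
def G (e : Fin nE) : Sym2 (Fin nV) := s(C.ga e, C.gb e)

variable {C}

/-- the permutation of the opposite darts -/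
def revP (h : C.Ok) : Equiv.Perm (Fin N) := ⟨C.rev, C.rev, h.rev_rev, h.rev_rev⟩

/-- the rotation -/
def rotP (h : C.Ok) : Equiv.Perm (Fin N) := ⟨C.rot, C.ri, h.ri_rot, h.rot_ri⟩

theorem phi_eq (h : C.Ok) (d : Fin N) : ((rotP h)⁻¹ * revP h) d = C.ph d := rfl

/-- allowed steps -/
def Stp (h : C.Ok) (e f : Fin nE) (a b : Fin N) : Prop :=
  b = ((rotP h)⁻¹ * revP h) a ∨ (C.lab a ≠ e ∧ C.lab a ≠ f ∧ b = revP h a)

theorem good_spec (e : Fin nE) (d : Fin N) (hd : C.good e d = true) :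
    ∃ v, C.org d = Sum.inl v ∧ v ∉ C.G e := by
  unfold good at hd
  rcases ho : C.org d with v | x
  · rw [ho] at hd
    simp only [Bool.and_eq_true, decide_eq_true_eq] at hd
    refine ⟨v, rfl, ?_⟩
    unfold G
    rw [Sym2.mem_iff, not_or]
    exact hd
  · rw [ho] at hd
    exact absurd hd (by simp)

theorem row_spec (h : C.Ok) (e f : Fin nE) (nx : Fin N → Bool)
    (hnx : ∀ d, nx d = true → ∃ d' v, Relation.ReflTransGen (Stp h e f) d d' ∧
      C.org d' = Sum.inl v ∧ v ∉ C.G e) : ∀ (m : ℕ) (d : Fin N),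
    C.row e nx m d = true → ∃ d' v, Relation.ReflTransGen (Stp h e f) d d' ∧
      C.org d' = Sum.inl v ∧ v ∉ C.G e := by
  intro m
  induction m with
  | zero =>
    intro d hd
    rw [row, Bool.or_eq_true] at hd
    rcases hd with hd | hd
    · obtain ⟨v, h1, h2⟩ := good_spec e d hd
      exact ⟨d, v, Relation.ReflTransGen.refl, h1, h2⟩
    · exact hnx d hd
  | succ m ih =>
    intro d hd
    rw [row, Bool.or_eq_true, Bool.or_eq_true] at hd
    rcases hd with hd | hd | hd
    · obtain ⟨v, h1, h2⟩ := good_spec e d hd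
      exact ⟨d, v, Relation.ReflTransGen.refl, h1, h2⟩
    · obtain ⟨d', v, h1, h2, h3⟩ := ih _ hd
      exact ⟨d', v, Relation.ReflTransGen.head (Or.inl rfl) h1, h2, h3⟩
    · exact hnx d hd

theorem look_spec (h : C.Ok) (e f : Fin nE) : ∀ (n : ℕ) (d : Fin N),
    C.look e f n d = true → ∃ d' v, Relation.ReflTransGen (Stp h e f) d d' ∧
      C.org d' = Sum.inl v ∧ v ∉ C.G e := by
  intro n
  induction n with
  | zero =>
    intro d hd
    exact row_spec h e f _ (fun d hd => absurd hd (by simp)) 5 d hd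
  | succ n ih =>
    intro d hd
    refine row_spec h e f _ ?_ 5 d hd
    intro d hd
    rw [Bool.and_eq_true, Bool.and_eq_true, decide_eq_true_eq, decide_eq_true_eq] at hd
    obtain ⟨d', v, h1, h2, h3⟩ := ih _ hd.2.2
    exact ⟨d', v, Relation.ReflTransGen.head (Or.inr ⟨hd.1, hd.2.1, rfl⟩) h1, h2, h3⟩

theorem go_spec (h : C.Ok) (w : List Bool) : ∀ d,
    Relation.ReflTransGen (fun c d => d = revP h c ∨ d = rotP h c) d (C.go w d) := by
  induction w with
  | nil => intro d; exact Relation.ReflTransGen.refl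
  | cons b w ih =>
    intro d
    rcases b with _ | _
    · exact Relation.ReflTransGen.head (Or.inr rfl) (ih _)
    · exact Relation.ReflTransGen.head (Or.inl rfl) (ih _)

theorem inr_of {d : Fin N} {x : Fin nX} (h : C.org d = Sum.inr x) : (C.org d).isRight := by
  rw [h]; rfl

/-- the drawing -/
def pre (h : C.Ok) : Pre C.G (Fin nX) (Fin N) (Fin nF) where
  rev := revP h
  rot := rotP h
  org := C.org
  lab := C.lab
  tgt := C.tgt
  rk := C.rk
  face := C.face
  pcan := C.pcan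
  fcan := C.fcan
  fw := C.fw
  fu := C.fu
  rev_rev := h.rev_rev
  rev_ne := h.rev_ne
  org_rot := h.org_rot
  org_pcan := h.org_pcan
  pcan_cyc := by
    intro d
    obtain ⟨m, hm⟩ := h.pcan_cyc d
    refine ⟨(m : ℕ), ?_⟩
    rw [zpow_natCast, ← Equiv.Perm.iterate_eq_pow]
    exact hm
  four := fun d x hx => h.four d (inr_of hx)
  face_phi := h.face_phi
  face_fcan := h.face_fcan
  fcan_cyc := by
    intro d
    obtain ⟨m, hm⟩ := h.fcan_cyc d
    refine ⟨(m : ℕ), ?_⟩
    rw [zpow_natCast, ← Equiv.Perm.iterate_eq_pow]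
    exact hm
  conn := by
    intro a b
    have h1 := go_spec h (C.up a) a
    have h2 := go_spec h (C.dn b) C.base
    rw [h.up_base] at h1
    rw [h.dn_base] at h2
    exact h1.trans h2
  euler := by
    simp only [Nat.card_eq_fintype_card, Fintype.card_fin]
    exact h.euler
  lab_rev := h.lab_rev
  lab_straight := fun d x hx => h.lab_straight d (inr_of hx)
  lead := by
    intro d
    rcases h.lead d with h1 | ⟨h1, h2, h3⟩
    · exact Or.inl h1
    · right
      obtain ⟨x, hx⟩ := Sum.isRight_iff.mp h1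
      exact ⟨x, hx, h2, h3⟩
  drawn := h.drawn
  ends := by
    intro d
    rcases h.ends d with ⟨h1, h2⟩ | ⟨h1, h2⟩
    · unfold G; rw [h1, h2]; rfl
    · unfold G; rw [h1, h2, Sym2.eq_swap]; rfl
  single := by
    intro d d' v h1 h2 h3
    exact h.single d d' h1 (by rw [h2]; rfl) (h2.trans h3.symm)
  simple1 := by
    rintro d x hx v ⟨h1, h2⟩
    obtain ⟨n1, n2, n3, n4⟩ := h.simple1 d (inr_of hx)
    unfold G at h1 h2
    rw [Sym2.mem_iff] at h1 h2
    rcases h1 with h1 | h1 <;> rcases h2 with h2 | h2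
    · exact n1 (h1.symm.trans h2)
    · exact n2 (h1.symm.trans h2)
    · exact n3 (h1.symm.trans h2)
    · exact n4 (h1.symm.trans h2)
  simple2 := by
    intro d d' x x' h1 h2 h3 h4
    have := h.simple2 d d' h3 (inr_of h1) (inr_of h2) h4
    rw [h1, h2] at this
    exact Sum.inr.inj this
  fan_mem := by
    intro e
    unfold G
    rw [Sym2.mem_iff]
    exact h.fan_mem e
  fan := fun d x hx => h.fan d (inr_of hx)
  nonhom := by
    intro e f hef hG d
    apply look_spec h e f 2 d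
    apply h.nonhom e f hef
    unfold G at hG
    rw [Sym2.eq_iff] at hG
    exact hG

theorem fanPlanarNonHomotopic (h : C.Ok) : FanPlanarNonHomotopic C.G := by
  apply (pre h).fanPlanarNonHomotopic
  intro e
  unfold G
  rw [Sym2.mk_isDiag_iff]
  exact h.loopless e

end CC

end Pool.Agent.Helper19.Fan.Low
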