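import Pool.Agent.Helper19.Fan.Low.Pre

set_option autoImplicit false

/-!
# A family of drawings with `5n - 10` edges

Two poles and a rim with `k` vertices; the edges are the rim, all spokes, and on both sides of the
rim an edge over every rim vertex joining its two neighbours.  Darts are pairs of a type and an
index.
-/

namespace Pool.Agent.Helper19.Fan.Low

open Equiv.Perm

section Tables

variable {N : ℕ} {k : ℕ}

/-- the map given by a table -/
def act (k : ℕ) (f : Fin N → Fin N × ℤ) (d : Fin N × ZMod k) : Fin N × ZMod k :=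
  ((f d.1).1, d.2 + ((f d.1).2 : ZMod k))

/-- two tables are inverse -/
def Inv (f g : Fin N → Fin N × ℤ) : Prop :=
  ∀ t, (g (f t).1).1 = t ∧ (f t).2 + (g (f t).1).2 = 0

theorem act_act {f g : Fin N → Fin N × ℤ} (h : Inv f g) (d : Fin N × ZMod k) :
    act k g (act k f d) = d := by
  obtain ⟨t, i⟩ := d
  obtain ⟨h1, h2⟩ := h t
  unfold act
  apply Prod.ext
  · exact h1
  · change i + ((f t).2 : ZMod k) + ((g (f t).1).2 : ZMod k) = i
    rw [add_assoc, ← Int.cast_add, h2, Int.cast_zero, add_zero]

/-- the permutation given by a table -/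
def mkPerm (k : ℕ) (f g : Fin N → Fin N × ℤ) (h : Inv f g) (h' : Inv g f) :
    Equiv.Perm (Fin N × ZMod k) where
  toFun := act k f
  invFun := act k g
  left_inv := act_act h
  right_inv := act_act h'

/-- iterates of a table -/
def it (f : Fin N → Fin N × ℤ) : ℕ → Fin N → Fin N × ℤ
  | 0, t => (t, 0)
  | m + 1, t => ((f (it f m t).1).1, (it f m t).2 + (f (it f m t).1).2)

theorem it_succ (f : Fin N → Fin N × ℤ) (m : ℕ) (t : Fin N) :
    it f (m + 1) t = ((f (it f m t).1).1, (it f m t).2 + (f (it f m t).1).2) := rfl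

theorem iterate_act (f : Fin N → Fin N × ℤ) (m : ℕ) (t : Fin N) (i : ZMod k) :
    (act k f)^[m] (t, i) = ((it f m t).1, i + ((it f m t).2 : ZMod k)) := by
  induction m with
  | zero => simp [it]
  | succ m ih =>
    rw [Function.iterate_succ_apply', ih, it_succ]
    unfold act
    apply Prod.ext
    · rfl
    · simp only [Int.cast_add]; ring

theorem pow_mkPerm {f g : Fin N → Fin N × ℤ} (h : Inv f g) (h' : Inv g f) (m : ℕ) (t : Fin N)
    (i : ZMod k) : (mkPerm k f g h h' ^ m) (t, i) = ((it f m t).1, i + ((it f m t).2 : ZMod k)) := by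
  rw [← iterate_act, ← Equiv.Perm.iterate_eq_pow]
  rfl

/-- composition of tables -/
def comp (f g : Fin N → Fin N × ℤ) (t : Fin N) : Fin N × ℤ :=
  ((g (f t).1).1, (f t).2 + (g (f t).1).2)

theorem act_comp (f g : Fin N → Fin N × ℤ) (d : Fin N × ZMod k) :
    act k (comp f g) d = act k g (act k f d) := by
  unfold act comp
  apply Prod.ext
  · rfl
  · simp only [Int.cast_add]; ring

/-- following a word: `true` is the first table, `false` the second -/
def wd (f g : Fin N → Fin N × ℤ) : List Bool → Fin N → Fin N × ℤ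
  | [], t => (t, 0)
  | true :: w, t => ((wd f g w (f t).1).1, (f t).2 + (wd f g w (f t).1).2)
  | false :: w, t => ((wd f g w (g t).1).1, (g t).2 + (wd f g w (g t).1).2)

theorem reach_wd {f g : Fin N → Fin N × ℤ} {R : Fin N × ZMod k → Fin N × ZMod k → Prop}
    (hf : ∀ d, R d (act k f d)) (hg : ∀ d, R d (act k g d)) (w : List Bool) :
    ∀ (t : Fin N) (i : ZMod k),
    Relation.ReflTransGen R (t, i) ((wd f g w t).1, i + ((wd f g w t).2 : ZMod k)) := by
  induction w with
  | nil => intro t i; simp only [wd, Int.cast_zero, add_zero]; exact Relation.ReflTransGen.refl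
  | cons b w ih =>
    intro t i
    rcases b with _ | _
    · have h1 := ih (g t).1 (i + ((g t).2 : ZMod k))
      refine Relation.ReflTransGen.head (hg (t, i)) ?_
      unfold wd
      simp only [Int.cast_add, ← add_assoc]
      exact h1
    · have h1 := ih (f t).1 (i + ((f t).2 : ZMod k))
      refine Relation.ReflTransGen.head (hf (t, i)) ?_
      unfold wd
      simp only [Int.cast_add, ← add_assoc]
      exact h1

/-- a small nonzero integer -/
def Sm (B : ℤ) (n : ℤ) : Prop := n ≠ 0 ∧ |n| < B

instance (B n : ℤ) : Decidable (Sm B n) := inferInstanceAs (Decidable (_ ∧ _))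

theorem Sm.ne {B n : ℤ} (h : Sm B n) (hk : B ≤ k) : ((n : ℤ) : ZMod k) ≠ 0 := by
  intro hh
  rw [ZMod.intCast_zmod_eq_zero_iff_dvd] at hh
  have h1 := Int.le_of_dvd (abs_pos.mpr h.1) ((dvd_abs _ _).mpr hh)
  have := h.2
  omega

theorem Sm.ne_of {B m n : ℤ} (h : Sm B (m - n)) (hk : B ≤ k) (i : ZMod k) :
    i + ((m : ℤ) : ZMod k) ≠ i + ((n : ℤ) : ZMod k) := by
  intro hh
  apply h.ne hk
  rw [Int.cast_sub, add_left_cancel hh, sub_self]

end Tables

namespace FamA

/-- opposite darts -/
def rv : Fin 26 → Fin 26 × ℤ :=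
  ![(1, 0), (0, 0), (3, 0), (2, 0), (5, 0), (4, 0), (7, 0), (6, 0), (9, 0), (8, 0), (11, 0),
    (10, 0), (13, 0), (12, 0), (15, 0), (14, 0), (17, 0), (16, 0), (19, 0), (18, 0), (21, 0),
    (20, 0), (23, 0), (22, 0), (25, 0), (24, 0)]

/-- rotation -/
def rt : Fin 26 → Fin 26 × ℤ :=
  ![(0, 1), (7, 0), (8, 0), (11, (-1)), (3, (-1)), (10, (-1)), (9, (-1)), (2, 0), (1, 0), (5,
    1), (6, 1), (25, 0), (12, (-1)), (20, 0), (19, 0), (16, 1), (24, (-1)), (21, (-1)), (22,
    (-1)), (13, 0), (14, 0), (18, 1), (17, 1), (15, 1), (4, 1), (23, 0)]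

/-- inverse rotation -/
def ri : Fin 26 → Fin 26 × ℤ :=
  ![(0, (-1)), (8, 0), (7, 0), (4, 1), (24, (-1)), (9, (-1)), (10, (-1)), (1, 0), (2, 0), (6,
    1), (5, 1), (3, 1), (12, 1), (19, 0), (20, 0), (23, (-1)), (15, (-1)), (22, (-1)), (21,
    (-1)), (14, 0), (13, 0), (17, 1), (18, 1), (25, 0), (16, 1), (11, 0)]

/-- class of the starting point -/
def oc : Fin 26 → Fin 3 ⊕ Fin 4 :=
  ![.inl 0, .inr 0, .inr 0, .inl 2, .inl 2, .inr 1, .inr 1, .inr 0, .inr 0, .inr 1, .inr 1,
    .inl 2, .inl 1, .inr 2, .inr 2, .inl 2, .inl 2, .inr 3, .inr 3, .inr 2, .inr 2, .inr 3,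
    .inr 3, .inl 2, .inl 2, .inl 2]

/-- index shift of the starting point -/
def os : Fin 26 → ℤ :=
  ![0, 0, 0, 0, (-1), (-1), (-1), 0, 0, 0, 0, 1, 0, 0, 0, 0, (-1), (-1), (-1), 0, 0, 0, 0, 1,
    0, 1]

/-- class of the edge -/
def lc : Fin 26 → Fin 5 :=
  ![1, 1, 1, 1, 3, 3, 3, 3, 3, 3, 3, 3, 2, 2, 2, 2, 4, 4, 4, 4, 4, 4, 4, 4, 0, 0]

/-- target vertex -/
def tg : Fin 26 → Fin 3 × ℤ :=
  ![(2, 0), (0, 0), (2, 0), (0, 0), (2, 1), (2, (-1)), (2, 1), (2, (-1)), (2, 1), (2, (-1)),
    (2, 1), (2, (-1)), (2, 0), (1, 0), (2, 0), (1, 0), (2, 1), (2, (-1)), (2, 1), (2, (-1)),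
    (2, 1), (2, (-1)), (2, 1), (2, (-1)), (2, 1), (2, 0)]

/-- number of crossings ahead -/
def rkt : Fin 26 → ℕ :=
  ![1, 0, 0, 1, 3, 0, 2, 1, 1, 2, 0, 3, 1, 0, 0, 1, 3, 0, 2, 1, 1, 2, 0, 3, 0, 0]

/-- class of the cell -/
def fc : Fin 26 → Fin 8 :=
  ![0, 0, 1, 2, 1, 3, 0, 2, 0, 1, 2, 3, 4, 4, 5, 6, 7, 6, 5, 4, 6, 4, 7, 5, 3, 7]

/-- index shift of the cell -/
def fs : Fin 26 → ℤ :=
  ![0, (-1), 0, 0, (-1), 0, (-1), 0, 0, 0, 1, 1, 0, 1, 0, 0, 0, (-1), 0, 0, 0, 1, 1, 1, 1, 1]

/-- canonical dart of a cell -/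
def fcn : Fin 8 → Fin 26 :=
  ![0, 2, 3, 5, 12, 14, 15, 16]

/-- first endpoint -/
def g1 : Fin 5 → Fin 3 × ℤ :=
  ![(2, 0), (0, 0), (1, 0), (2, (-1)), (2, (-1))]

/-- second endpoint -/
def g2 : Fin 5 → Fin 3 × ℤ :=
  ![(2, 1), (2, 0), (2, 0), (2, 1), (2, 1)]

/-- the endpoint towards which the centre is on the left -/
def fuT : Fin 5 → Fin 3 × ℤ :=
  ![(2, 0), (0, 0), (1, 0), (2, (-1)), (2, 1)]

/-- the centre -/
def fwT : Fin 5 → Fin 3 × ℤ :=
  ![(2, 0), (2, (-1)), (2, 1), (2, 0), (2, 0)]

/-- way to the rim dart -/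
def w1 : Fin 26 → List Bool :=
  ![[true, false, false, true, false, false, true], [false, false, true, false, false, true],
    [true, false, false, true], [false, false, true], [false, false, false, true], [false,
    true, false, true], [true, false, true, false, false, true], [false, true, false, false,
    true], [true, false, false, true, false, true], [false, false, true, false, true], [true,
    false, true], [false, true], [true, false, false, true, false, false], [false, false, true,
    false, false], [true, false, false], [false, false], [false], [true, false], [false, false,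
    true, false], [true, false, false, true, false], [false, true, false, false], [true, false,
    true, false, false], [false, true, false], [false, false, false], [], [true]]

/-- way from the rim dart -/
def w2 : Fin 26 → List Bool :=
  ![[false, false, true, false, false, true], [false, false, true, false, false], [false,
    false, true], [false, false], [false], [false, true], [false, true, false, false], [false,
    true, false, false, true], [false, false, true, false], [false, true, false, false, false],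
    [false, true, false], [false, false, false], [true, false, false, true, false, false,
    true], [true, false, false, true, false, false], [true, false, false, true], [true, false,
    false], [true, false, false, false], [true, false, true, false], [true, false, true, false,
    false, false], [true, false, false, true, false], [true, false, true, false, false, true],
    [true, false, true, false, false], [true, false, true], [true, false], [], [true]]

/-- way to the next rim dart -/
def w3 : List Bool :=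
  [true, false, false, false, false]

/-- canonical dart at a vertex -/
def vcn : Fin 3 → Fin 26 :=
  ![0, 12, 24]

/-- canonical dart at a crossing point -/
def xcn : Fin 4 → Fin 26 :=
  ![2, 10, 14, 22]

/-- table of the boundary walks of the cells -/
def ph : Fin 26 → Fin 26 × ℤ := comp rv ri

theorem inv_rv : Inv rv rv := by unfold Inv; decide
theorem inv_rt : Inv rt ri := by unfold Inv; decide
theorem inv_ri : Inv ri rt := by unfold Inv; decide

/-- vertices: two poles and the rim -/
abbrev VV (k : ℕ) := Fin 2 ⊕ ZMod k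

/-- a vertex from its class and index -/
def vert (k : ℕ) (c : Fin 3) (j : ZMod k) : VV k :=
  if c = 0 then Sum.inl 0 else if c = 1 then Sum.inl 1 else Sum.inr j

/-- a point from its class and index -/
def pt (k : ℕ) (c : Fin 3 ⊕ Fin 4) (j : ZMod k) : VV k ⊕ (Fin 4 × ZMod k) :=
  match c with
  | Sum.inl c => Sum.inl (vert k c j)
  | Sum.inr x => Sum.inr (x, j)

variable {k : ℕ}

theorem vert_eq {c c' : Fin 3} {j j' : ZMod k} (h : vert k c j = vert k c' j') :
    c = c' ∧ (c = 2 → j = j') := by
  unfold vert at h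
  fin_cases c <;> fin_cases c' <;> simp_all

theorem vert_two (j : ZMod k) : vert k 2 j = Sum.inr j := rfl

/-- the multigraph -/
def GG (k : ℕ) (e : Fin 5 × ZMod k) : Sym2 (VV k) :=
  s(vert k (g1 e.1).1 (e.2 + ((g1 e.1).2 : ℤ)), vert k (g2 e.1).1 (e.2 + ((g2 e.1).2 : ℤ)))

/-- differences of classes or small differences of indices -/
def Df (B : ℤ) (p q : Fin 3 × ℤ) : Prop := p.1 ≠ q.1 ∨ (p.1 = 2 ∧ Sm B (p.2 - q.2))

instance (B : ℤ) (p q : Fin 3 × ℤ) : Decidable (Df B p q) := inferInstanceAs (Decidable (_ ∨ _))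

theorem Df.ne {B : ℤ} {p q : Fin 3 × ℤ} (h : Df B p q) (hk : B ≤ k) (i : ZMod k) :
    vert k p.1 (i + (p.2 : ZMod k)) ≠ vert k q.1 (i + (q.2 : ZMod k)) := by
  intro hh
  obtain ⟨h1, h2⟩ := vert_eq hh
  rcases h with h | ⟨h, h'⟩
  · exact h h1
  · exact h'.ne_of hk i (h2 h)

theorem loopless (hk : 4 ≤ k) (e : Fin 5 × ZMod k) : ¬ (GG k e).IsDiag := by
  unfold GG
  rw [Sym2.mk_isDiag_iff]
  have h : ∀ c, Df 4 (g1 c) (g2 c) := by decide
  exact (h e.1).ne (by exact_mod_cast hk) e.2

end FamA

end Pool.Agent.Helper19.Fan.Low
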