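import Pool.Agent.Helper19.Fan.Low.FamA

set_option autoImplicit false

/-!
# The family of drawings: the conditions
-/

namespace Pool.Agent.Helper19.Fan.Low.FamA

open Equiv.Perm

variable {k : ℕ}

/-- opposite darts -/
def revP (k : ℕ) : Equiv.Perm (Fin 26 × ZMod k) := mkPerm k rv rv inv_rv inv_rv

/-- rotation -/
def rotP (k : ℕ) : Equiv.Perm (Fin 26 × ZMod k) := mkPerm k rt ri inv_rt inv_ri

theorem revP_apply (d : Fin 26 × ZMod k) : revP k d = act k rv d := rfl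

theorem rotP_apply (d : Fin 26 × ZMod k) : rotP k d = act k rt d := rfl

theorem rotP_inv_apply (d : Fin 26 × ZMod k) : (rotP k)⁻¹ d = act k ri d := rfl

theorem phi_apply (d : Fin 26 × ZMod k) : ((rotP k)⁻¹ * revP k) d = act k ph d := by
  unfold ph
  rw [act_comp]; rfl

theorem phi_iter (m : ℕ) (t : Fin 26) (i : ZMod k) :
    (((rotP k)⁻¹ * revP k) ^ m) (t, i) = ((it ph m t).1, i + ((it ph m t).2 : ZMod k)) := by
  rw [← Equiv.Perm.iterate_eq_pow, ← iterate_act]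
  congr 1
  funext d
  exact phi_apply d

theorem rot_iter (m : ℕ) (t : Fin 26) (i : ZMod k) :
    (rotP k ^ m) (t, i) = ((it rt m t).1, i + ((it rt m t).2 : ZMod k)) :=
  pow_mkPerm _ _ _ _ _

/-- starting point -/
def orgF (k : ℕ) (d : Fin 26 × ZMod k) : VV k ⊕ (Fin 4 × ZMod k) :=
  pt k (oc d.1) (d.2 + (os d.1 : ZMod k))

/-- edge -/
def labF (k : ℕ) (d : Fin 26 × ZMod k) : Fin 5 × ZMod k := (lc d.1, d.2)

/-- target -/
def tgtF (k : ℕ) (d : Fin 26 × ZMod k) : VV k := vert k (tg d.1).1 (d.2 + ((tg d.1).2 : ZMod k))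

/-- cell -/
def faceF (k : ℕ) (d : Fin 26 × ZMod k) : Fin 8 × ZMod k := (fc d.1, d.2 + (fs d.1 : ZMod k))

/-- canonical dart at a point -/
def pcanF (k : ℕ) (p : VV k ⊕ (Fin 4 × ZMod k)) : Fin 26 × ZMod k :=
  match p with
  | Sum.inl (Sum.inl c) => (vcn c.castSucc, 0)
  | Sum.inl (Sum.inr j) => (vcn 2, j)
  | Sum.inr (x, j) => (xcn x, j)

theorem rev_rev (d : Fin 26 × ZMod k) : revP k (revP k d) = d := act_act inv_rv d

theorem rev_ne (d : Fin 26 × ZMod k) : revP k d ≠ d := by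
  intro h
  have h1 : (rv d.1).1 = d.1 := congrArg Prod.fst h
  have h2 : ∀ t, (rv t).1 ≠ t := by decide
  exact h2 _ h1

theorem pt_pole (c : Fin 3) (hc : c ≠ 2) (j j' : ZMod k) : pt k (.inl c) j = pt k (.inl c) j' := by
  unfold pt vert
  fin_cases c
  · rfl
  · rfl
  · exact absurd rfl hc

theorem org_rot (d : Fin 26 × ZMod k) : orgF k (rotP k d) = orgF k d := by
  obtain ⟨t, i⟩ := d
  rw [rotP_apply]
  unfold orgF act
  have h : ∀ t, oc (rt t).1 = oc t ∧ ((oc t = .inl 0 ∨ oc t = .inl 1) ∨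
      (rt t).2 + os (rt t).1 = os t) := by decide
  obtain ⟨h1, h2⟩ := h t
  simp only
  rw [h1]
  rcases h2 with (h2 | h2) | h2
  · rw [h2]; exact pt_pole 0 (by decide) _ _
  · rw [h2]; exact pt_pole 1 (by decide) _ _
  · congr 1
    rw [add_assoc, ← Int.cast_add, h2]

theorem org_pcan (p : VV k ⊕ (Fin 4 × ZMod k)) : orgF k (pcanF k p) = p := by
  rcases p with (c | j) | ⟨x, j⟩
  · fin_cases c
    · rfl
    · rfl
  · change pt k (.inl 2) (j + ((0 : ℤ) : ZMod k)) = _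
    rw [Int.cast_zero, add_zero]; rfl
  · change pt k (oc (xcn x)) (j + (os (xcn x) : ZMod k)) = _
    have h : ∀ x, oc (xcn x) = .inr x ∧ os (xcn x) = 0 := by decide
    rw [(h x).1, (h x).2, Int.cast_zero, add_zero]; rfl

theorem exists_nat [NeZero k] (x : ZMod k) : ∃ m : ℕ, (m : ZMod k) = x :=
  ⟨x.val, ZMod.natCast_zmod_val x⟩

theorem it_pole (f : Fin 26 → Fin 26 × ℤ) (t : Fin 26) (s : ℤ) (h : f t = (t, s)) (m : ℕ) :
    it f m t = (t, m * s) := by
  induction m with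
  | zero => simp [it]
  | succ m ih =>
    rw [it_succ, ih]
    simp only [h]
    apply Prod.ext
    · rfl
    · simp only; push_cast; ring

theorem pcan_cyc [NeZero k] (d : Fin 26 × ZMod k) :
    (rotP k).SameCycle (pcanF k (orgF k d)) d := by
  obtain ⟨t, i⟩ := d
  have h : ∀ t, (oc t = .inl 0 ∧ t = vcn 0) ∨ (oc t = .inl 1 ∧ t = vcn 1) ∨
      (oc t = .inl 2 ∧ ∃ m < 8, it rt m (vcn 2) = (t, - os t)) ∨
      ∃ x, oc t = .inr x ∧ ∃ m < 8, it rt m (xcn x) = (t, - os t) := by decide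
  rcases h t with ⟨h1, rfl⟩ | ⟨h1, rfl⟩ | ⟨h1, m, -, h2⟩ | ⟨x, h1, m, -, h2⟩
  · obtain ⟨m, hm⟩ := exists_nat i
    refine ⟨m, ?_⟩
    rw [zpow_natCast]
    have h3 : pcanF k (orgF k (vcn 0, i)) = (vcn 0, 0) := by
      unfold orgF; simp only [h1]; rfl
    rw [h3, rot_iter, it_pole rt (vcn 0) 1 (by decide)]
    simp [hm]
  · obtain ⟨m, hm⟩ := exists_nat (-i)
    refine ⟨m, ?_⟩
    rw [zpow_natCast]
    have h3 : pcanF k (orgF k (vcn 1, i)) = (vcn 1, 0) := by
      unfold orgF; simp only [h1]; rfl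
    rw [h3, rot_iter, it_pole rt (vcn 1) (-1) (by decide)]
    simp [hm]
  · refine ⟨m, ?_⟩
    rw [zpow_natCast]
    have h3 : pcanF k (orgF k (t, i)) = (vcn 2, i + (os t : ZMod k)) := by
      unfold orgF; simp only [h1]; rfl
    rw [h3, rot_iter, h2]
    simp
  · refine ⟨m, ?_⟩
    rw [zpow_natCast]
    have h3 : pcanF k (orgF k (t, i)) = (xcn x, i + (os t : ZMod k)) := by
      unfold orgF; simp only [h1]; rfl
    rw [h3, rot_iter, h2]
    simp

theorem org_inr {d : Fin 26 × ZMod k} {x : Fin 4 × ZMod k} (h : orgF k d = Sum.inr x) :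
    ∃ c, oc d.1 = .inr c ∧ x = (c, d.2 + (os d.1 : ZMod k)) := by
  unfold orgF at h
  rcases hc : oc d.1 with c | c
  · rw [hc] at h; cases h
  · rw [hc] at h
    exact ⟨c, rfl, (Sum.inr.inj h).symm⟩

theorem org_inl {d : Fin 26 × ZMod k} {v : VV k} (h : orgF k d = Sum.inl v) :
    ∃ c, oc d.1 = .inl c ∧ v = vert k c (d.2 + (os d.1 : ZMod k)) := by
  unfold orgF at h
  rcases hc : oc d.1 with c | c
  · rw [hc] at h
    exact ⟨c, rfl, (Sum.inl.inj h).symm⟩
  · rw [hc] at h; cases h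

theorem four (d : Fin 26 × ZMod k) (x : Fin 4 × ZMod k) (h : orgF k d = Sum.inr x) :
    rotP k (rotP k (rotP k (rotP k d))) = d ∧ rotP k (rotP k d) ≠ d := by
  obtain ⟨c, hc, -⟩ := org_inr h
  have h1 : ∀ t, (oc t).isRight → it rt 4 t = (t, 0) ∧ (it rt 2 t).1 ≠ t := by decide
  obtain ⟨h2, h3⟩ := h1 d.1 (by rw [hc]; rfl)
  obtain ⟨t, i⟩ := d
  have e4 := iterate_act rt 4 t i
  have e2 := iterate_act rt 2 t i
  rw [h2, Int.cast_zero, add_zero] at e4
  refine ⟨e4, ?_⟩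
  intro hh
  have e5 : (act k rt)^[2] (t, i) = (t, i) := hh
  rw [e2] at e5
  exact h3 (congrArg Prod.fst e5)

theorem face_phi (d : Fin 26 × ZMod k) :
    faceF k (((rotP k)⁻¹ * revP k) d) = faceF k d := by
  rw [phi_apply]
  obtain ⟨t, i⟩ := d
  have h : ∀ t, fc (ph t).1 = fc t ∧ (ph t).2 + fs (ph t).1 = fs t := by decide
  unfold faceF act
  apply Prod.ext
  · exact (h t).1
  · simp only
    rw [add_assoc, ← Int.cast_add, (h t).2]

theorem face_fcan (f : Fin 8 × ZMod k) : faceF k (fcn f.1, f.2) = f := by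
  have h : ∀ c, fc (fcn c) = c ∧ fs (fcn c) = 0 := by decide
  unfold faceF
  apply Prod.ext
  · exact (h f.1).1
  · simp only
    rw [(h f.1).2, Int.cast_zero, add_zero]

theorem fcan_cyc (d : Fin 26 × ZMod k) :
    ((rotP k)⁻¹ * revP k).SameCycle (fcn (faceF k d).1, (faceF k d).2) d := by
  obtain ⟨t, i⟩ := d
  have h : ∀ t, ∃ m < 5, it ph m (fcn (fc t)) = (t, - fs t) := by decide
  obtain ⟨m, -, h1⟩ := h t
  refine ⟨m, ?_⟩
  rw [zpow_natCast, phi_iter]
  change ((it ph m (fcn (fc t))).1, i + (fs t : ZMod k) + ((it ph m (fcn (fc t))).2 : ZMod k)) = _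
  rw [h1]
  simp

theorem conn [NeZero k] (a b : Fin 26 × ZMod k) :
    Relation.ReflTransGen (fun c d => d = revP k c ∨ d = rotP k c) a b := by
  have hf : ∀ d, act k rv d = revP k d ∨ act k rv d = rotP k d := fun d => Or.inl rfl
  have hg : ∀ d, act k rt d = revP k d ∨ act k rt d = rotP k d := fun d => Or.inr rfl
  obtain ⟨t, i⟩ := a
  obtain ⟨t', j⟩ := b
  have h1 := reach_wd (R := fun c d => d = revP k c ∨ d = rotP k c) hf hg (w1 t) t i
  have h2 : ∀ x, Relation.ReflTransGen (fun c d => d = revP k c ∨ d = rotP k c) (24, x)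
      (t', x + ((wd rv rt (w2 t') 24).2 : ZMod k)) := by
    intro x
    have h3 := reach_wd (R := fun c d => d = revP k c ∨ d = rotP k c) hf hg (w2 t') 24 x
    have h4 : ∀ t, (wd rv rt (w2 t) 24).1 = t := by decide
    rwa [h4] at h3
  have h5 : ∀ (m : ℕ) (x : ZMod k),
      Relation.ReflTransGen (fun c d => d = revP k c ∨ d = rotP k c) (24, x) (24, x + m) := by
    intro m
    induction m with
    | zero => intro x; simp only [Nat.cast_zero, add_zero]; exact Relation.ReflTransGen.refl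
    | succ m ih =>
      intro x
      refine (ih x).trans ?_
      have h6 := reach_wd (R := fun c d => d = revP k c ∨ d = rotP k c) hf hg w3 24 (x + m)
      have h7 : wd rv rt w3 24 = (24, 1) := by decide
      rw [h7] at h6
      push_cast at h6 ⊢
      rw [← add_assoc]
      exact h6
  have h8 : ∀ t, (wd rv rt (w1 t) t).1 = 24 := by decide
  rw [h8] at h1
  obtain ⟨m, hm⟩ := exists_nat (j - ((wd rv rt (w2 t') 24).2 : ZMod k) -
    (i + ((wd rv rt (w1 t) t).2 : ZMod k)))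
  have h9 := h2 (i + ((wd rv rt (w1 t) t).2 : ZMod k) + m)
  rw [hm] at h9
  have e1 : i + ((wd rv rt (w1 t) t).2 : ZMod k) + (j - ((wd rv rt (w2 t') 24).2 : ZMod k) -
    (i + ((wd rv rt (w1 t) t).2 : ZMod k))) + ((wd rv rt (w2 t') 24).2 : ZMod k) = j := by ring
  rw [e1] at h9
  have h10 := h5 m (i + ((wd rv rt (w1 t) t).2 : ZMod k))
  rw [hm] at h10
  exact (h1.trans h10).trans h9

end Pool.Agent.Helper19.Fan.Low.FamA
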