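import Pool.Agent.Helper19.Fan.Low.FamA2

set_option autoImplicit false

/-!
# The family of drawings: edges
-/

namespace Pool.Agent.Helper19.Fan.Low.FamA

open Equiv.Perm

variable {k : ℕ}

theorem euler (k : ℕ) [NeZero k] : 2 * (Nat.card (VV k) + Nat.card (Fin 4 × ZMod k) +
    Nat.card (Fin 8 × ZMod k)) = Nat.card (Fin 26 × ZMod k) + 4 := by
  simp only [Nat.card_eq_fintype_card, Fintype.card_sum, Fintype.card_prod, Fintype.card_fin,
    ZMod.card]
  ring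

theorem lab_rev (d : Fin 26 × ZMod k) : labF k (revP k d) = labF k d := by
  obtain ⟨t, i⟩ := d
  have h : ∀ t, lc (rv t).1 = lc t ∧ (rv t).2 = 0 := by decide
  rw [revP_apply]
  unfold labF act
  apply Prod.ext
  · exact (h t).1
  · simp only; rw [(h t).2, Int.cast_zero, add_zero]

theorem lab_straight (d : Fin 26 × ZMod k) (x : Fin 4 × ZMod k) (h : orgF k d = Sum.inr x) :
    labF k (rotP k (rotP k d)) = labF k d := by
  obtain ⟨c, hc, -⟩ := org_inr h
  obtain ⟨t, i⟩ := d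
  have h1 : ∀ t, (oc t).isRight → lc (it rt 2 t).1 = lc t ∧ (it rt 2 t).2 = 0 := by decide
  obtain ⟨h2, h3⟩ := h1 t (by rw [hc]; rfl)
  have e2 : rotP k (rotP k (t, i)) = _ := iterate_act rt 2 t i
  rw [e2]
  unfold labF
  apply Prod.ext
  · exact h2
  · simp only; rw [h3, Int.cast_zero, add_zero]

theorem lead (d : Fin 26 × ZMod k) : orgF k (revP k d) = Sum.inl (tgtF k d) ∨
    ∃ x, orgF k (revP k d) = Sum.inr x ∧
    tgtF k (rotP k (rotP k (revP k d))) = tgtF k d ∧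
    rkt (rotP k (rotP k (revP k d))).1 < rkt d.1 := by
  obtain ⟨t, i⟩ := d
  have h : ∀ t, (oc (rv t).1 = .inl (tg t).1 ∧ (rv t).2 + os (rv t).1 = (tg t).2) ∨
      ∃ x, oc (rv t).1 = .inr x ∧ (tg (comp rv (comp rt rt) t).1).1 = (tg t).1 ∧
        (comp rv (comp rt rt) t).2 + (tg (comp rv (comp rt rt) t).1).2 = (tg t).2 ∧
        rkt (comp rv (comp rt rt) t).1 < rkt t := by decide
  have e1 : rotP k (rotP k (revP k (t, i))) = act k (comp rv (comp rt rt)) (t, i) := by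
    rw [act_comp, act_comp]; rfl
  rcases h t with ⟨h1, h2⟩ | ⟨x, h1, h2, h3, h4⟩
  · left
    rw [revP_apply]
    unfold orgF act tgtF
    simp only [h1]
    change Sum.inl _ = Sum.inl _
    rw [add_assoc, ← Int.cast_add, h2]
  · right
    refine ⟨(x, i + ((rv t).2 : ZMod k) + (os (rv t).1 : ZMod k)), ?_, ?_, ?_⟩
    · rw [revP_apply]
      unfold orgF act
      simp only [h1]
      rfl
    · rw [e1]
      unfold act tgtF
      simp only
      rw [h2, add_assoc, ← Int.cast_add, h3]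
    · rw [e1]; exact h4

theorem drawn (e : Fin 5 × ZMod k) : ∃ d, labF k d = e := by
  have h : ∀ c, ∃ t, lc t = c := by decide
  obtain ⟨t, ht⟩ := h e.1
  exact ⟨(t, e.2), by unfold labF; rw [ht]⟩

theorem ends (d : Fin 26 × ZMod k) :
    GG k (labF k d) = s(tgtF k d, tgtF k (revP k d)) := by
  obtain ⟨t, i⟩ := d
  have h : ∀ t, (g1 (lc t) = tg t ∧ (g2 (lc t)).1 = (tg (rv t).1).1 ∧
      (g2 (lc t)).2 = (rv t).2 + (tg (rv t).1).2) ∨
      (g2 (lc t) = tg t ∧ (g1 (lc t)).1 = (tg (rv t).1).1 ∧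
      (g1 (lc t)).2 = (rv t).2 + (tg (rv t).1).2) := by decide
  rw [revP_apply]
  unfold GG labF tgtF act
  simp only
  rcases h t with ⟨h1, h2, h3⟩ | ⟨h1, h2, h3⟩
  · rw [h1, h2, h3, Int.cast_add, add_assoc]
  · rw [h1, h2, h3, Int.cast_add, add_assoc, Sym2.eq_swap]

theorem single (hk : 4 ≤ k) (d d' : Fin 26 × ZMod k) (v : VV k) (h1 : labF k d = labF k d')
    (h2 : orgF k d = Sum.inl v) (h3 : orgF k d' = Sum.inl v) : d = d' := by
  obtain ⟨t, i⟩ := d
  obtain ⟨t', i'⟩ := d'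
  have l1 : lc t = lc t' := congrArg Prod.fst h1
  have l2 : i = i' := congrArg Prod.snd h1
  subst l2
  obtain ⟨c, hc, hv⟩ := org_inl h2
  obtain ⟨c', hc', hv'⟩ := org_inl h3
  rw [hv] at hv'
  obtain ⟨e1, e2⟩ := vert_eq hv'
  subst e1
  have h : ∀ t t', lc t = lc t' → oc t = oc t' → (oc t).isLeft → t = t' ∨
      (oc t = .inl 2 ∧ Sm 4 (os t - os t')) := by decide
  simp only at hc hc'
  rcases h t t' l1 (hc.trans hc'.symm) (by rw [hc]; rfl) with h4 | ⟨h4, h5⟩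
  · rw [h4]
  · exfalso
    rw [hc] at h4
    exact h5.ne_of (by exact_mod_cast hk) i (e2 (Sum.inl.inj h4))

theorem mem_GG {e : Fin 5 × ZMod k} {v : VV k} (h : v ∈ GG k e) :
    ∃ p, (p = g1 e.1 ∨ p = g2 e.1) ∧ v = vert k p.1 (e.2 + (p.2 : ZMod k)) := by
  unfold GG at h
  rw [Sym2.mem_iff] at h
  rcases h with h | h
  · exact ⟨_, Or.inl rfl, h⟩
  · exact ⟨_, Or.inr rfl, h⟩

theorem simple1 (hk : 4 ≤ k) (d : Fin 26 × ZMod k) (x : Fin 4 × ZMod k)
    (h : orgF k d = Sum.inr x) (v : VV k) :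
    ¬ (v ∈ GG k (labF k d) ∧ v ∈ GG k (labF k (rotP k d))) := by
  rintro ⟨h1, h2⟩
  obtain ⟨c, hc, -⟩ := org_inr h
  obtain ⟨t, i⟩ := d
  obtain ⟨p, hp, hvp⟩ := mem_GG h1
  obtain ⟨q, hq, hvq⟩ := mem_GG h2
  rw [rotP_apply] at hq hvq
  have key : ∀ t, (oc t).isRight → ∀ p ∈ [g1 (lc t), g2 (lc t)],
      ∀ q ∈ [g1 (lc (rt t).1), g2 (lc (rt t).1)], Df 4 p (q.1, (rt t).2 + q.2) := by decide
  have h3 := key t (by rw [hc]; rfl) p (by
    rcases hp with rfl | rfl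
    · exact List.mem_cons_self
    · exact List.mem_cons_of_mem _ List.mem_cons_self) q (by
    rcases hq with rfl | rfl
    · exact List.mem_cons_self
    · exact List.mem_cons_of_mem _ List.mem_cons_self)
  apply h3.ne (k := k) (by exact_mod_cast hk) i
  rw [hvp] at hvq
  simp only [labF, act] at hvq
  simp only [Int.cast_add, ← add_assoc]
  exact hvq

theorem simple2 (hk : 4 ≤ k) (d d' : Fin 26 × ZMod k) (x x' : Fin 4 × ZMod k)
    (h1 : orgF k d = Sum.inr x) (h2 : orgF k d' = Sum.inr x') (h3 : labF k d = labF k d')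
    (h4 : labF k (rotP k d) = labF k (rotP k d')) : x = x' := by
  obtain ⟨t, i⟩ := d
  obtain ⟨t', i'⟩ := d'
  have l1 : lc t = lc t' := congrArg Prod.fst h3
  have l2 : i = i' := congrArg Prod.snd h3
  subst l2
  have l3 : lc (rt t).1 = lc (rt t').1 := congrArg Prod.fst h4
  have l4 : i + ((rt t).2 : ZMod k) = i + ((rt t').2 : ZMod k) := congrArg Prod.snd h4
  obtain ⟨c, hc, hx⟩ := org_inr h1
  obtain ⟨c', hc', hx'⟩ := org_inr h2
  have h : ∀ t t', (oc t).isRight → (oc t').isRight → lc t = lc t' →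
      lc (rt t).1 = lc (rt t').1 → (oc t = oc t' ∧ os t = os t') ∨
      Sm 4 ((rt t).2 - (rt t').2) := by decide
  simp only at hc hc' hx hx'
  rcases h t t' (by rw [hc]; rfl) (by rw [hc']; rfl) l1 l3 with ⟨h5, h6⟩ | h5
  · rw [hc, hc'] at h5
    rw [hx, hx', Sum.inr.inj h5, h6]
  · exact absurd l4 (h5.ne_of (by exact_mod_cast hk) i)

/-- towards which endpoint the centre is on the left -/
def fuF (k : ℕ) (e : Fin 5 × ZMod k) : VV k := vert k (fuT e.1).1 (e.2 + ((fuT e.1).2 : ZMod k))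

/-- the centre -/
def fwF (k : ℕ) (e : Fin 5 × ZMod k) : VV k := vert k (fwT e.1).1 (e.2 + ((fwT e.1).2 : ZMod k))

theorem fan_mem (e : Fin 5 × ZMod k) : fuF k e ∈ GG k e := by
  have h : ∀ c, fuT c = g1 c ∨ fuT c = g2 c := by decide
  unfold fuF GG
  rw [Sym2.mem_iff]
  rcases h e.1 with h | h
  · left; rw [h]
  · right; rw [h]

theorem fan (hk : 4 ≤ k) (d : Fin 26 × ZMod k) (x : Fin 4 × ZMod k)
    (h1 : orgF k (revP k d) = Sum.inr x) (h2 : tgtF k d = fuF k (labF k d)) :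
    tgtF k ((rotP k)⁻¹ (revP k d)) = fwF k (labF k d) := by
  obtain ⟨t, i⟩ := d
  have e1 : (rotP k)⁻¹ (revP k (t, i)) = act k ph (t, i) := phi_apply _
  rw [e1]
  obtain ⟨c, hc, -⟩ := org_inr h1
  rw [revP_apply] at hc
  have h : ∀ t, (oc (rv t).1).isRight → Df 4 (tg t) (fuT (lc t)) ∨
      ((tg (ph t).1).1 = (fwT (lc t)).1 ∧ (ph t).2 + (tg (ph t).1).2 = (fwT (lc t)).2) := by
    decide
  rcases h t (by
    have hc' : oc (rv t).1 = .inr c := hc
    rw [hc']; rfl) with h3 | ⟨h3, h4⟩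
  · exact absurd h2 (h3.ne (by exact_mod_cast hk) i)
  · unfold tgtF act fwF labF
    simp only
    rw [h3, ← h4, Int.cast_add, add_assoc]

end Pool.Agent.Helper19.Fan.Low.FamA
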