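import Pool.Agent.Helper19.Fan.Basic

set_option autoImplicit false

/-!
# Explicit drawings

Conditions on explicit functions which guarantee that they form a drawing with all properties.
-/

namespace Pool.Agent.Helper19.Fan

open Equiv.Perm

/-- Explicit data of a connected drawing. -/
structure Pre {V E : Type} (G : E → Sym2 V) (X D F : Type) where
  rev : Equiv.Perm D
  rot : Equiv.Perm D
  org : D → V ⊕ X
  lab : D → E
  tgt : D → V
  rk : D → ℕ
  face : D → F
  pcan : V ⊕ X → D
  fcan : F → D
  fw : E → V
  fu : E → V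
  rev_rev : ∀ d, rev (rev d) = d
  rev_ne : ∀ d, rev d ≠ d
  org_rot : ∀ d, org (rot d) = org d
  org_pcan : ∀ p, org (pcan p) = p
  pcan_cyc : ∀ d, rot.SameCycle (pcan (org d)) d
  four : ∀ d x, org d = Sum.inr x → rot (rot (rot (rot d))) = d ∧ rot (rot d) ≠ d
  face_phi : ∀ d, face ((rot⁻¹ * rev) d) = face d
  face_fcan : ∀ f, face (fcan f) = f
  fcan_cyc : ∀ d, (rot⁻¹ * rev).SameCycle (fcan (face d)) d
  conn : ∀ a b, Relation.ReflTransGen (fun c d => d = rev c ∨ d = rot c) a b
  euler : 2 * (Nat.card V + Nat.card X + Nat.card F) = Nat.card D + 4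
  lab_rev : ∀ d, lab (rev d) = lab d
  lab_straight : ∀ d x, org d = Sum.inr x → lab (rot (rot d)) = lab d
  lead : ∀ d, org (rev d) = Sum.inl (tgt d) ∨ ∃ x, org (rev d) = Sum.inr x ∧
    tgt (rot (rot (rev d))) = tgt d ∧ rk (rot (rot (rev d))) < rk d
  drawn : ∀ e, ∃ d, lab d = e
  ends : ∀ d, G (lab d) = s(tgt d, tgt (rev d))
  single : ∀ d d' v, lab d = lab d' → org d = Sum.inl v → org d' = Sum.inl v → d = d'
  simple1 : ∀ d x, org d = Sum.inr x → ∀ v, ¬ (v ∈ G (lab d) ∧ v ∈ G (lab (rot d)))
  simple2 : ∀ d d' x x', org d = Sum.inr x → org d' = Sum.inr x' → lab d = lab d' →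
    lab (rot d) = lab (rot d') → x = x'
  fan_mem : ∀ e, fu e ∈ G e
  fan : ∀ d x, org (rev d) = Sum.inr x → tgt d = fu (lab d) →
    tgt (rot⁻¹ (rev d)) = fw (lab d)
  nonhom : ∀ e f, e ≠ f → G e = G f → ∀ d, ∃ d' v,
    Relation.ReflTransGen (fun a b => b = (rot⁻¹ * rev) a ∨ (lab a ≠ e ∧ lab a ≠ f ∧ b = rev a))
      d d' ∧ org d' = Sum.inl v ∧ v ∉ G e

namespace Pre

variable {V E : Type} {G : E → Sym2 V} {X D F : Type} (P : Pre G X D F)

theorem leads (d : D) : Leads P.rev P.rot P.org d (P.tgt d) := by
  induction hn : P.rk d using Nat.strong_induction_on generalizing d with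
  | _ n ih =>
    rcases P.lead d with h | ⟨x, h1, h2, h3⟩
    · exact Leads.stop h
    · refine Leads.cross h1 ?_
      rw [← h2]
      exact ih _ (by rw [← hn]; exact h3) _ rfl

theorem tgt_eq {d : D} {v : V} (h : Leads P.rev P.rot P.org d v) : P.tgt d = v :=
  (P.leads d).unique h

/-- The drawing. -/
def toDrawing : Drawing G X D where
  rev := P.rev
  rot := P.rot
  org := P.org
  lab := fun d => some (P.lab d)
  cell := SameCycle.setoid (P.rot⁻¹ * P.rev)
  rev_rev := P.rev_rev
  rev_ne := fun d _ _ => P.rev_ne d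
  stub := by intro d h; exact absurd h (Option.some_ne_none _)
  org_eq_iff := by
    intro a b
    constructor
    · intro h
      have h1 := P.pcan_cyc a
      have h2 := P.pcan_cyc b
      rw [h] at h1
      exact h1.symm.trans h2
    · rintro ⟨n, rfl⟩
      induction n with
      | zero => rfl
      | succ n ih =>
        rw [add_comm, zpow_add, zpow_one, Equiv.Perm.mul_apply, P.org_rot]; exact ih
      | pred n ih =>
        rw [sub_eq_add_neg, add_comm, zpow_add, zpow_neg_one, Equiv.Perm.mul_apply,
          ← P.org_rot (P.rot⁻¹ _)]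
        simpa using ih
  org_surj := fun p => ⟨P.pcan p, P.org_pcan p⟩
  crossing_four := P.four
  cell_walk := by
    intro d
    change (P.rot⁻¹ * P.rev).SameCycle d _
    rw [sameCycle_apply_right]
  connected := by
    intro a b
    refine Relation.ReflTransGen.mono ?_ _ _ (P.conn a b)
    intro c d h
    rcases h with h | h
    · exact Or.inl h
    · exact Or.inr (Or.inl h)
  euler := by
    have h1 := P.euler
    have h2 : Nat.card {d : D // some (P.lab d) ≠ none} = Nat.card D := by
      apply Nat.card_congr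
      exact Equiv.subtypeUnivEquiv (fun d => Option.some_ne_none _)
    have h3 : Nat.card (Quotient (SameCycle.setoid (P.rot⁻¹ * P.rev))) = Nat.card F := by
      apply Nat.card_congr
      have hf : ∀ a b, (P.rot⁻¹ * P.rev).SameCycle a b → P.face a = P.face b := by
        rintro a b ⟨n, rfl⟩
        induction n with
        | zero => rfl
        | succ n ih =>
          rw [add_comm, zpow_add, zpow_one, Equiv.Perm.mul_apply, P.face_phi]; exact ih
        | pred n ih =>
          rw [sub_eq_add_neg, add_comm, zpow_add, zpow_neg_one, Equiv.Perm.mul_apply,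
            ← P.face_phi ((P.rot⁻¹ * P.rev)⁻¹ _)]
          simpa using ih
      exact
        { toFun := Quotient.lift P.face hf
          invFun := fun f => Quotient.mk _ (P.fcan f)
          left_inv := by
            intro q
            induction q using Quotient.inductionOn with
            | _ d => exact Quotient.sound (P.fcan_cyc d)
          right_inv := by
            intro f
            exact P.face_fcan f }
    rw [h2, h3]
    omega
  lab_rev := by intro d; rw [P.lab_rev]
  lab_straight := by intro d x h; rw [P.lab_straight d x h]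
  leads := fun d => ⟨P.tgt d, P.leads d⟩
  drawn := by
    intro e
    obtain ⟨d, hd⟩ := P.drawn e
    exact ⟨d, by rw [hd]⟩
  ends := by
    intro d e u v h1 h2 h3
    rw [← P.tgt_eq h2, ← P.tgt_eq h3, ← P.ends d, Option.some.inj h1]
  single := by
    intro d d' e v h1 h2 h3 h4
    exact P.single d d' v ((Option.some.inj h1).trans (Option.some.inj h2).symm) h3 h4

include P in
theorem fanPlanarNonHomotopic [Finite X] [Finite D] (hG : ∀ e, ¬ (G e).IsDiag) :
    FanPlanarNonHomotopic G := by
  refine ⟨hG, X, D, inferInstance, inferInstance, P.toDrawing, ⟨?_, ?_⟩, ?_, ?_⟩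
  · intro d x e f h1 h2 h3 v hv
    have e1 : P.lab d = e := Option.some.inj h2
    have e2 : P.lab (P.rot d) = f := Option.some.inj h3
    exact P.simple1 d x h1 v (by rw [e1, e2]; exact hv)
  · intro d d' x x' h1 h2 h3 h4
    exact P.simple2 d d' x x' h1 h2 (Option.some.inj h3) (Option.some.inj h4)
  · intro e
    refine ⟨P.fw e, P.fu e, P.fan_mem e, ?_⟩
    intro d x h1 h2 h3
    have e1 : P.lab d = e := Option.some.inj h1
    have h4 := P.fan d x h2 (by rw [e1]; exact P.tgt_eq h3)
    rw [e1] at h4
    have h5 := P.leads (P.rot⁻¹ (P.rev d))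
    rw [h4] at h5
    exact h5
  · intro e f hef hG d
    obtain ⟨d', v, h1, h2, h3⟩ := P.nonhom e f hef hG d
    refine ⟨d', v, ?_, h2, h3⟩
    refine Relation.ReflTransGen.mono ?_ _ _ h1
    intro a b hab
    rcases hab with rfl | ⟨n1, n2, rfl⟩
    · left
      change (P.rot⁻¹ * P.rev).SameCycle a _
      rw [sameCycle_apply_right]
    · right
      exact ⟨fun hh => n1 (Option.some.inj hh), fun hh => n2 (Option.some.inj hh), rfl⟩

end Pre

end Pool.Agent.Helper19.Fan
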